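import Pool.Agent.BLA.Claim
import Pool.Agent.BLA.GPNamed
import Pool.Agent.BLA.AnaOf

/-!
# Blass's conjecture for analytic names

For a selective ultrafilter `p` on `ℕ`, an ultrafilter `U` on `ℕ` belongs to the family `GP p` (the
smallest family containing `p` and closed under Rudin-Keisler images and Blass-Frolik sums) if and
only if `U = {A | ∃ x ∈ p, (x, A) ∈ R}` for some analytic relation `R`. The proof is in ZFC; it
does not use genericity of `p` over a model.

The definitions `Selective`, `IsSum`, `GP` are in `Pool.Agent.BLA.Defs`, and `chi`, `AnalyticOver` in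
`Pool.Agent.BLA.AnaTo`.
-/

namespace Pool.Agent.Results.MP_5b8899_lc.AnalyticNames

open Pool.Agent.BLA

theorem result (p : Ultrafilter ℕ) (hp : Selective p) (U : Ultrafilter ℕ) :
    GP p U ↔ AnalyticOver p U :=
  ⟨fun h => (h.named hp).analyticOver hp, fun h => (h.named hp).gp hp⟩

end Pool.Agent.Results.MP_5b8899_lc.AnalyticNames
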