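import Pool.Agent.BSP.YFull

/-!
# Blass's conjecture: the ultrafilters of `L(R)[p]` are the members of `G^p`

Let `M` be a countable model of ZFC, `κ` an inaccessible cardinal of `M`, `G` a filter generic over `M`
for the Levy collapse of `κ`, and `N = M[G]`.

1. If `p` is, in `N`, a nonprincipal ultrafilter on `omega` which is generic over `L(R)` for the infinite
   subsets of `omega` ordered by inclusion, then the ultrafilters on `omega` in `L(R)[p]` are exactly the
   members of the family `G^p`.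
2. If `κ` is Mahlo in `M`, then every selective ultrafilter `p` of `N` is generic over `L(R)`, so the
   ultrafilters on `omega` in `L(R)[p]` are exactly the members of `G^p`.

All notions are evaluated inside the models of ZF `M` and `N` (`ZFM`, `x ∈ y`). The definitions `Uf`,
`Nonpr`, `Selective`, `InGp`, `InLRp` are in `Pool.Agent.BSM.Defs`, the definitions `Inacc`, `Lev`,
`LevR`, `Gen`, `IsExt` in `Pool.Agent.BSM.DefsG`, the definition `GenLR` in `Pool.Agent.BSP.TDefs`, the
definition `Mahlo` in `Pool.Agent.BSP.YMah`.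
-/

namespace Pool.Agent.Results.MP_5b8899_lc.BlassConjecture

open Pool.Agent.H78.ZF Pool.Agent.ZFIter Pool.Agent.ZFIter.NPA Pool.Agent.ZFIter.NPA.BSM
open Pool.Agent.ZFIter.NPA.BSM.SP

theorem result :
    (∀ (M N : Type) [ZFM M] [ZFM N] [Countable M], AC M → ∀ κ : M, Inacc κ →
      ∀ G : M → Prop, Gen (Lev κ) (LevR κ) G → ∀ i : M → N, IsExt i G →
      ∀ p : N, Uf p → Nonpr p → GenLR p → ∀ U : N, Uf U ∧ InLRp p U ↔ InGp p U) ∧
    (∀ (M N : Type) [ZFM M] [ZFM N] [Countable M], AC M → ∀ κ : M, Mahlo κ →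
      ∀ G : M → Prop, Gen (Lev κ) (LevR κ) G → ∀ i : M → N, IsExt i G →
      ∀ p : N, Selective p → GenLR p ∧ ∀ U : N, Uf U ∧ InLRp p U ↔ InGp p U) :=
  ⟨fun _ _ _ _ _ hAC _ hκ _ hG _ hi _ hp hn hg U => full_pos hAC hκ hG hi hp hn hg U,
    fun _ _ _ _ _ hAC _ hκ _ hG _ hi _ hp =>
      ⟨genLR_mahlo hAC hκ hG hi hp, fun U => full_mahlo hAC hκ hG hi hp U⟩⟩

end Pool.Agent.Results.MP_5b8899_lc.BlassConjecture
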