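import Pool.Agent.BSM.Fin
import Pool.Agent.BSM.WWf

/-!
# A Solovay model with a selective ultrafilter for which the statement of Q1 fails

There is a countable well founded model `M` of ZFC and `V = L` such that, for its least inaccessible
cardinal `κ` and some (in fact every) filter `G` generic over `M` for the Levy collapse of `κ`, the
extension `N = M[G]` has a selective ultrafilter `p` on `omega` and a nonprincipal ultrafilter `U` on
`omega` which belongs to `L(R)[p]` and not to the family `G^p`.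

All notions are evaluated inside the models of ZF `M` and `N` (`ZFM`, `x ∈ y`). The definitions `Uf`,
`Nonpr`, `Selective`, `InGp`, `InLRp` are in `Pool.Agent.BSM.Defs`, the definitions `Inacc`, `Lev`,
`LevR`, `Gen`, `IsExt` in `Pool.Agent.BSM.DefsG`.
-/

namespace Pool.Agent.Results.MP_5b8899_lc.FirstInaccessible

open Pool.Agent.H78.ZF Pool.Agent.ZFIter Pool.Agent.ZFIter.NPA Pool.Agent.ZFIter.NPA.BSM

theorem result : ∃ (M : Type) (_ : ZFM M) (N : Type) (_ : ZFM N) (i : M → N) (κ : M) (G : M → Prop),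
    Countable M ∧ WellFounded (fun x y : M => x ∈ y) ∧ WellFounded (fun x y : N => x ∈ y) ∧
    (∀ x : M, InL emp x) ∧ AC M ∧ Inacc κ ∧ (∀ μ, μ ∈ κ → ¬ Inacc μ) ∧
    Gen (Lev κ) (LevR κ) G ∧ IsExt i G ∧ AC N ∧
    ∃ p U : N, Selective p ∧ Uf U ∧ Nonpr U ∧ InLRp p U ∧ ¬ InGp p U := by
  obtain ⟨M, hM, hc, hw, hV, κ, hκ, hmin⟩ := exists_ground_wf
  obtain ⟨G, hG, _⟩ := exists_gen (Lev κ) (LevR κ) emp emp_lev
  exact ⟨M, hM, (Fo.mk (Lev κ) (LevR κ) G pre_lev hG hV).Ext, zfmExt, can _, κ, G, hc, hw,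
    isExt_wf isExt hw, hV, ac_vl hV, hκ, hmin, hG, isExt, ac_ext, main_ext _ hκ hmin rfl rfl⟩

end Pool.Agent.Results.MP_5b8899_lc.FirstInaccessible
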